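import Pool.Agent.Run7.h527.AD.Gb
import Pool.Agent.Run7.h527.AD.Dens

/-!
# Goldbach's problem for the values of the arithmetic derivative

Let `m′` be the arithmetic derivative of `m`: `p′ = 1` for all primes `p`, and `(m n)′ = m n′ + n m′`. Since `(p q)′ = p + q`
for primes `p ≠ q`, the problem asks which numbers are derivatives of products of two different primes. For almost all `m`
with an even derivative and with a prime factor larger than `m^(3/10 + ρ)` the derivative `m′` is the sum of two different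
primes `p`, `q`, so that `m′ = (p q)′`, and the number of these pairs is at least `1 / 21` of the number predicted by Hardy
and Littlewood; for almost all `m` with a prime factor larger than `m^(1/3 + ρ)` the number of the pairs is asymptotically the
predicted number. At least 70 per cent of the multiples of four (for which `m′` is always even) have this property. The same
is true for all linear combinations `g(m) = α m + β D(m)`, `β ≠ 0`, where `D` is any function of moderate growth with Leibniz'
rule `D(m n) = m D(n) + n D(m)` for coprime `m`, `n`, and `D(p) = u p + v`, `v ≠ 0`, for all large primes `p`, as long as `g(m)`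
is positive and not very small. These functions are neither additive nor multiplicative, nothing is known on the
distribution of their values in residue classes to large moduli, and their values are taken with large multiplicities.

The starting result `AliquotSums` on another problem treats the combinations `α m + β f(m)` with multiplicative functions
`f`. A derivation is not of this form.

Proof. Write `m = k p` with the large prime factor `p`. Then `g(m) = A p + B` with `A = (α + β u) k + β D(k)` and `B = β v k`.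
The theorem on Goldbach representations in the residue classes of every modulus (`R460/GH`, `R460/GS`, `N733/AQ`, starting
files) is applied to the class of `B` modulo `A`, for every `k`. The greatest common divisor of `A` and `B` divides
`β² v gcd(k, D(k))`, and this is bounded for all `k` without large square divisors, since a prime `ℓ` which divides `k` exactly
once divides `D(k)` only if it divides `D(ℓ)`. A prime factor of `m` which is at most `log m`, as almost all `m` have, shows
that the derivative is at least `m / log m`.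
-/

set_option autoImplicit false

namespace Pool.Agent.Results.MP_7b7e48_nt.ArithmeticDerivative

open Finset Filter Topology
open Pool.Agent.H560R3.GB (HL sing)

/-- `D` satisfies Leibniz' rule for coprime arguments, `|D m| ≤ m (1 + log m)^C`, and `D p = u p + v` for all large primes
`p`. -/
structure Derivation (D : ℕ → ℤ) (u v : ℤ) : Prop where
  leib : ∀ m n : ℕ, Nat.Coprime m n → D (m * n) = m * D n + n * D m
  growth : ∃ C : ℕ, ∀ m : ℕ, 1 ≤ m → |(D m : ℝ)| ≤ m * (1 + Real.log m) ^ C
  prime : ∃ P : ℕ, ∀ p : ℕ, P ≤ p → p.Prime → D p = u * p + v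

/-- The arithmetic derivative `m′ = ∑ a m / p`, over the prime powers `p^a` which divide `m` exactly. -/
def deriv (m : ℕ) : ℕ := ∑ p ∈ m.primeFactors, m.factorization p * (m / p)

/-- The number of primes `p` with `y₁ < p ≤ y₂` such that `n - p` is a prime. -/
def count (n y₁ y₂ : ℕ) : ℕ := ((Ioc y₁ y₂).filter (fun p => p.Prime ∧ (n - p).Prime)).card

/-- The number of the representations `n = p + q` with primes `q < p`, for even `n` the number `g(n / 2)` of the problem. -/
def pairs (n : ℕ) : ℕ := ((range n).filter (fun q => 2 * q < n ∧ q.Prime ∧ (n - q).Prime)).card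

/-- (1) The number of the representations as a sum of two different primes is half of the number
`HL n = sing n * n / (log n)²` of Hardy and Littlewood, with a relative error of at most `ε`; (2) in every window
`(y₁, y₂] ⊆ (0, n]` of a length of at least `n / (log n)^W` the number of primes `p` such that `n - p` is a prime is
`sing n * (y₂ - y₁) / (log n)²` with a relative error of at most `ε`. -/
def Formula (ε : ℝ) (W n : ℕ) : Prop :=
  |(pairs n : ℝ) - HL n / 2| ≤ ε * (HL n / 2) ∧
  ∀ y₁ y₂ : ℕ, y₁ < y₂ → y₂ ≤ n → (n : ℝ) / Real.log n ^ W ≤ (y₂ : ℝ) - y₁ →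
    |(count n y₁ y₂ : ℝ) - sing n * ((y₂ : ℝ) - y₁) / Real.log n ^ 2| ≤
      ε * (sing n * ((y₂ : ℝ) - y₁) / Real.log n ^ 2)

/-- (1) There are at least `1 / 21` of the predicted number of representations as a sum of two different primes; (2) in every
window `(y₁, y₂] ⊆ (0, n]` of a length of at least `n / (log n)^W` the number of primes `p` such that `n - p` is a prime is at
least a twentieth of `sing n * (y₂ - y₁) / (log n)²`. -/
def Lower (W n : ℕ) : Prop :=
  1 / 21 * (HL n / 2) ≤ (pairs n : ℝ) ∧
  ∀ y₁ y₂ : ℕ, y₁ < y₂ → y₂ ≤ n → (n : ℝ) / Real.log n ^ W ≤ (y₂ : ℝ) - y₁ →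
    1 / 20 * (sing n * ((y₂ : ℝ) - y₁) / Real.log n ^ 2) ≤ (count n y₁ y₂ : ℝ)

/-- `m` has a prime factor `p ≥ m ^ τ`. -/
def LargePrime (τ : ℝ) (m : ℕ) : Prop := ∃ p : ℕ, p.Prime ∧ p ∣ m ∧ (m : ℝ) ^ τ ≤ p

open Classical in
/-- The proportion of the positive integers `m ≤ N` without the property `P` tends to `0`. -/
def AlmostAll (P : ℕ → Prop) : Prop :=
  Tendsto (fun N : ℕ => (((Icc 1 N).filter (fun m => ¬ P m)).card : ℝ) / N) atTop (𝓝 0)

/-- The number `n > 0` is the sum of two different primes `p`, `q`, and it is the derivative of `p q`. -/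
def Solved (n : ℕ) : Prop :=
  0 < pairs n ∧ ∃ p q : ℕ, p.Prime ∧ q.Prime ∧ p ≠ q ∧ p + q = n ∧ deriv (p * q) = n

theorem der_of {D : ℕ → ℤ} {u v : ℤ} (hD : Derivation D u v) : Run7.h527.AD.Der D u v :=
  ⟨hD.leib, hD.growth, hD.prime⟩

theorem asymptotic (D : ℕ → ℤ) (u v α β : ℤ) (C W : ℕ) (ρ ε : ℝ) (hD : Derivation D u v) (hv : v ≠ 0) (hβ : β ≠ 0)
    (hρ : 0 < ρ) (hε : 0 < ε) :
    AlmostAll (fun m => LargePrime (1 / 3 + ρ) m → (m : ℝ) / Real.log m ^ C ≤ ((α * m + β * D m : ℤ) : ℝ) →
      Even (α * m + β * D m) → Formula ε W (α * m + β * D m).toNat) := by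
  have h := Run7.h527.AD.der_general (der_of hD) hv α β hβ (2 / 3) (by norm_num) (by norm_num) (Formula ε W)
    (Pool.Agent.N733.AQ.ebt_asymp (Formula ε W) (ε / 2) (by positivity) (W + 1) (Run7.h527.AD.formula_of ε hε W)) C ρ hρ
  rw [show (1 - 2 / 3 : ℝ) = 1 / 3 by norm_num] at h
  exact h

theorem lower (D : ℕ → ℤ) (u v α β : ℤ) (C W : ℕ) (ρ : ℝ) (hD : Derivation D u v) (hv : v ≠ 0) (hβ : β ≠ 0)
    (hρ : 0 < ρ) :
    AlmostAll (fun m => LargePrime (3 / 10 + ρ) m → (m : ℝ) / Real.log m ^ C ≤ ((α * m + β * D m : ℤ) : ℝ) →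
      Even (α * m + β * D m) → Lower W (α * m + β * D m).toNat) := by
  have h := Run7.h527.AD.der_general (der_of hD) hv α β hβ (7 / 10) (by norm_num) (by norm_num) (Lower W)
    (Pool.Agent.N733.AQ.ebt_lower (Lower W) (W + 1) (Run7.h527.AD.lower_of W)) C ρ hρ
  rw [show (1 - 7 / 10 : ℝ) = 3 / 10 by norm_num] at h
  exact h

theorem derivation_deriv : Derivation (fun m => (deriv m : ℤ)) 0 1 :=
  ⟨Run7.h527.AD.der_deriv.leib, Run7.h527.AD.der_deriv.growth, Run7.h527.AD.der_deriv.prime⟩

theorem almostAll_and {P Q R : ℕ → Prop} (hP : AlmostAll P) (hQ : AlmostAll Q) (m₀ : ℕ)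
    (h : ∀ m, m₀ ≤ m → P m → Q m → R m) : AlmostAll R :=
  Pool.Agent.Results.MP_967f73_nt.AliquotSums.almostAll_and hP hQ m₀ h

theorem asymptotic_deriv (W : ℕ) (ρ ε : ℝ) (hρ : 0 < ρ) (hε : 0 < ε) :
    AlmostAll (fun m => LargePrime (1 / 3 + ρ) m → Even (deriv m) → Formula ε W (deriv m)) := by
  have h := asymptotic (fun m => (deriv m : ℤ)) 0 1 0 1 2 W ρ ε derivation_deriv (by norm_num) (by norm_num) hρ hε
  refine almostAll_and h Run7.h527.AD.deriv_large 0 ?_
  intro m _ h1 h2 h3 h4
  have e : (0 * (m : ℤ) + 1 * (deriv m : ℤ)) = (deriv m : ℤ) := by ring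
  have h5 := h1 h3
  rw [e, Int.toNat_natCast] at h5
  exact h5 (by exact_mod_cast h2) (by exact_mod_cast h4)

theorem lower_deriv (W : ℕ) (ρ : ℝ) (hρ : 0 < ρ) :
    AlmostAll (fun m => LargePrime (3 / 10 + ρ) m → Even (deriv m) → Lower W (deriv m) ∧ Solved (deriv m)) := by
  have h := lower (fun m => (deriv m : ℤ)) 0 1 0 1 2 W ρ derivation_deriv (by norm_num) (by norm_num) hρ
  refine almostAll_and h Run7.h527.AD.deriv_large 8 ?_
  rintro m hm h1 h2 h3 h4
  have e : (0 * (m : ℤ) + 1 * (deriv m : ℤ)) = (deriv m : ℤ) := by ring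
  have h5 := h1 h3
  rw [e, Int.toNat_natCast] at h5
  have h6 : Lower W (deriv m) := h5 (by exact_mod_cast h2) (by exact_mod_cast h4)
  refine ⟨h6, ?_⟩
  -- the derivative is at least two
  have hlog : 0 < Real.log (m : ℝ) := Real.log_pos (by exact_mod_cast (by omega : 1 < m))
  have hm0 : (0 : ℝ) < m := by exact_mod_cast (by omega : 0 < m)
  have h7 : 0 < deriv m := by
    have : (0 : ℝ) < deriv m := lt_of_lt_of_le (by positivity) h2
    exact_mod_cast this
  have h8 : 2 ≤ deriv m := by
    obtain ⟨t, ht⟩ := h4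
    omega
  have h9 : 0 < pairs (deriv m) := Run7.h527.AD.pairs_pos h8 h6
  obtain ⟨a, b, ha, hb, hab, hs⟩ := Run7.h527.AD.distinct_of_pairs h9
  refine ⟨h9, a, b, ha, hb, hab, hs, ?_⟩
  rw [← hs]
  exact Run7.h527.AD.deriv_mul_primes ha hb hab

open Classical in
theorem density (δ : ℝ) (hδ : δ < 7 / 10) : ∃ N₀ : ℕ, ∀ N : ℕ, N₀ ≤ N →
    δ * (N / 4) ≤ (((Icc 1 N).filter (fun m => 4 ∣ m ∧ Even (deriv m) ∧ Solved (deriv m))).card : ℝ) := by
  obtain ⟨N₀, h⟩ := Run7.h527.AD.density_four (fun m => Even (deriv m) ∧ Solved (deriv m)) (fun ρ hρ => by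
    refine almostAll_and (lower_deriv 0 ρ hρ) (lower_deriv 0 ρ hρ) 1 ?_
    rintro m hm h1 - h2 ⟨t, rfl⟩
    have hev : Even (deriv (4 * t)) := (Run7.h527.AD.deriv_four t (by omega)).2
    exact ⟨hev, (h1 h2 hev).2⟩) δ hδ
  refine ⟨N₀, fun N hN => (h N hN).trans (Nat.cast_le.2 ?_)⟩
  exact Pool.Agent.Results.MP_967f73_nt.AliquotSums.card_mono' (fun m hm => hm)

open Classical in
/-- **Goldbach's problem for the arithmetic derivative and similar functions.** Let `D` be a function of moderate growth with
Leibniz' rule for coprime arguments and `D p = u p + v`, `v ≠ 0`, for all large primes `p`, let `α`, `β ≠ 0` be integers,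
`g(m) = α m + β D(m)`, and let `ρ > 0`. For almost all `m` with a prime factor `≥ m^(1/3 + ρ)` and `g(m) ≥ m / (log m)^C` the
integer `g(m)`, if it is even, satisfies the formula of Hardy and Littlewood; with a prime factor `≥ m^(3/10 + ρ)` at least
the lower bound holds. The arithmetic derivative is an example; here the condition on the size is true for almost all
`m`, and the sums `p + q` of different primes are the derivatives of the products `p q`. For at least `7/10` of the
multiples `m` of four the (even) derivative of `m` is the sum of two different primes `p`, `q`, and the derivative of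
`p q`. -/
theorem result :
    (∀ (D : ℕ → ℤ) (u v α β : ℤ) (C W : ℕ) (ρ ε : ℝ), Derivation D u v → v ≠ 0 → β ≠ 0 → 0 < ρ → 0 < ε →
      AlmostAll (fun m => LargePrime (1 / 3 + ρ) m → (m : ℝ) / Real.log m ^ C ≤ ((α * m + β * D m : ℤ) : ℝ) →
        Even (α * m + β * D m) → Formula ε W (α * m + β * D m).toNat)) ∧
    (∀ (D : ℕ → ℤ) (u v α β : ℤ) (C W : ℕ) (ρ : ℝ), Derivation D u v → v ≠ 0 → β ≠ 0 → 0 < ρ →
      AlmostAll (fun m => LargePrime (3 / 10 + ρ) m → (m : ℝ) / Real.log m ^ C ≤ ((α * m + β * D m : ℤ) : ℝ) →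
        Even (α * m + β * D m) → Lower W (α * m + β * D m).toNat)) ∧
    (Derivation (fun m => (deriv m : ℤ)) 0 1 ∧ (∀ p : ℕ, p.Prime → deriv p = 1) ∧
      ∀ m n : ℕ, 1 ≤ m → 1 ≤ n → deriv (m * n) = m * deriv n + n * deriv m) ∧
    (∀ (W : ℕ) (ρ ε : ℝ), 0 < ρ → 0 < ε →
      AlmostAll (fun m => LargePrime (1 / 3 + ρ) m → Even (deriv m) → Formula ε W (deriv m))) ∧
    (∀ (W : ℕ) (ρ : ℝ), 0 < ρ →
      AlmostAll (fun m => LargePrime (3 / 10 + ρ) m → Even (deriv m) → Lower W (deriv m) ∧ Solved (deriv m))) ∧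
    ∀ δ : ℝ, δ < 7 / 10 → ∃ N₀ : ℕ, ∀ N : ℕ, N₀ ≤ N → δ * (N / 4) ≤
      (((Icc 1 N).filter (fun m => 4 ∣ m ∧ Even (deriv m) ∧ Solved (deriv m))).card : ℝ) :=
  ⟨asymptotic, lower, ⟨derivation_deriv, Run7.h527.AD.deriv_prime, Run7.h527.AD.deriv_leibniz⟩, asymptotic_deriv,
    lower_deriv, density⟩

end Pool.Agent.Results.MP_7b7e48_nt.ArithmeticDerivative
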