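import Pool.Agent.Run7.h469.CT.Main
import Pool.Agent.Results.MP_7b7e48_nt.DistinctPrimesInSparseClasses

/-!
# Sums of two distinct primes along the trajectories of the `3 x + 1` map

Let `T(x) = x / 2` for even and `T(x) = (q x + c) / 2` for odd `x` (`q`, `c` odd and coprime; `q = 3`, `c = 1` is the map of
Collatz). For almost all starting values `m`, ALL the first `κ log m` members `n = T^k(m)` of the trajectory of `m`, and all
their multiples `u n` with `u ≤ (log m)^U`, are such that the number `g(u n)` of the representations of `2 u n` as a sum of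
two distinct primes satisfies the asymptotic formula of Hardy and Littlewood, also in windows, if
`κ < 1 / (log 2 + (log q) / 4)`, and is at least `1 / 21` of the predicted number if `κ < 1 / (log 2 + 3 (log q) / 14)`.
The exceptional set has at most `N / (log N)^A` elements up to `N`, for every `A`. For the map of Collatz one can take
`κ = 1.03` and `κ = 1.07`: the trajectory of a typical `m` reaches `1` after about `6.95 log m` steps, so this is (more than)
the first seventh of the whole trajectory; with `u = 2` the result contains all the members `3 x + 1` which are left out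
by `T`.

Definitions used from the starting file `Results/MP_7b7e48_nt/DistinctPrimesInSparseClasses`: `M n`: the set of the pairs
`(p, p')` of primes with `p + p' = 2 n`, `p > n > p'`; `g n`: the number of its elements; `gw n y₁ y₂`: the number of the
pairs with `y₁ < p' ≤ y₂`; `pred n l = sing (2 n) l / (log 2 n)²`: the prediction of Hardy and Littlewood (`sing` is the
singular series); `Formula ε W n`: `|g n - pred n n| ≤ ε pred n n` and `|gw n y₁ y₂ - pred n (y₂ - y₁)| ≤ ε pred n (y₂ - y₁)`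
for all `y₁ < y₂ < n` with `y₂ - y₁ ≥ n / (log n)^W`; `Lower W n`: the same with the lower bounds `g n ≥ pred n n / 21` and
`gw n y₁ y₂ ≥ pred n (y₂ - y₁) / 21`.

Proof. On a residue class `r` modulo `2^k` the map `T^k` is affine, `T^k(2^k v + r) = q^a v + T^k(r)`, where `a` is the number
of the odd members among the first `k` members, and `T^k(r)` is prime to `q` if `a > 0`. So the `k`-th members of the
trajectories that start in this class run through a residue class of the large modulus `q^a` which is prime to the modulus.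
The theorem of the starting files on the representations in all residue classes of all moduli up to `x^(2/3 - ρ)` and
`x^(7/10 - ρ)` (`R460/GH`, `R460/GS`) can be applied if `a` is not much larger than `k / 2`; the other classes are few, by
the identity `∑_r z^(a(r)) = (1 + z)^k`.
-/

set_option autoImplicit false

namespace Pool.Agent.Results.MP_7b7e48_nt.CollatzTrajectories

open Finset Filter Topology
open Pool.Agent.Results.MP_7b7e48_nt.DistinctPrimesInSparseClasses (Formula Lower M g gw pred)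

/-- the `q x + c` map, `x ↦ x / 2` for even `x` and `x ↦ (q x + c) / 2` for odd `x`; `T 3 1` is the map of Collatz -/
def T (q c x : ℕ) : ℕ := if x % 2 = 0 then x / 2 else (q * x + c) / 2

open Classical in
/-- The `m ≤ N` such that `P (u * T^k(m))` is false for some `k ≤ κ log N` and some `1 ≤ u ≤ (log N)^U`. -/
noncomputable def exceptional (q c : ℕ) (P : ℕ → Prop) (κ : ℝ) (U N : ℕ) : Finset ℕ :=
  (Icc 1 N).filter (fun m => ∃ k u : ℕ, (k : ℝ) ≤ κ * Real.log N ∧ 1 ≤ u ∧ (u : ℝ) ≤ Real.log N ^ U ∧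
    ¬ P (u * (T q c)^[k] m))

/-- `n` is the sum of two distinct primes. -/
def TwoDistinctPrimes (n : ℕ) : Prop := ∃ p p' : ℕ, p.Prime ∧ p'.Prime ∧ p ≠ p' ∧ p + p' = n

open Classical in
/-- The proportion of the positive integers `m ≤ N` without the property `P` tends to `0`. -/
def AlmostAll (P : ℕ → Prop) : Prop :=
  Tendsto (fun N : ℕ => (((Icc 1 N).filter (fun m => ¬ P m)).card : ℝ) / N) atTop (𝓝 0)

theorem T_eq : T = Run7.h469.CT.step := rfl

theorem general (q c : ℕ) (hq : Odd q) (hc : Odd c) (hcq : Nat.Coprime c q) (θ κ : ℝ) (hθ0 : 0 < θ) (hθ1 : θ < 1)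
    (hκ : κ * (θ * Real.log 2 + (1 - θ) / 2 * Real.log q) < θ) (P : ℕ → Prop) (hP : Run7.h469.CT.Few θ P)
    (A U : ℕ) : ∃ N₀ : ℕ, ∀ N : ℕ, N₀ ≤ N → ((exceptional q c P κ U N).card : ℝ) ≤ N / Real.log N ^ A := by
  classical
  have hqr : (1 : ℝ) ≤ q := by exact_mod_cast hq.pos
  have hlogq : 0 ≤ Real.log q := Real.log_nonneg hqr
  have hl2 : 0 < Real.log 2 := Real.log_pos (by norm_num)
  obtain ⟨V, hV⟩ : ∃ V, V = θ * Real.log 2 + (1 - θ) / 2 * Real.log q := ⟨_, rfl⟩
  have hV0 : 0 < V := by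
    rw [hV]
    have : 0 ≤ (1 - θ) / 2 := by linarith
    positivity
  rw [← hV] at hκ
  -- a positive constant, at least `κ`
  obtain ⟨κ', hκ'0, hκκ', hκ'⟩ : ∃ κ' : ℝ, 0 < κ' ∧ κ ≤ κ' ∧ κ' * V < θ := by
    refine ⟨max κ (θ / V / 2), lt_max_of_lt_right (by positivity), le_max_left _ _, ?_⟩
    rcases max_choice κ (θ / V / 2) with h | h
    · rw [h]; exact hκ
    · rw [h]
      have : θ / V / 2 * V = θ / 2 := by field_simp
      rw [this]
      linarith
  rw [hV] at hκ'
  obtain ⟨N₀, hN₀⟩ := Run7.h469.CT.core (q := q) (c := c) hq hc hcq θ κ' hθ0 hθ1 hκ'0 hκ' P hP A U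
  refine ⟨N₀ + 1, fun N hN => le_trans ?_ (hN₀ N (by omega))⟩
  have hlogN : 0 ≤ Real.log N := Real.log_nonneg (by exact_mod_cast (by omega : 1 ≤ N))
  apply Nat.cast_le.2
  apply card_le_card
  intro m hm
  unfold exceptional at hm
  rw [mem_filter] at hm ⊢
  obtain ⟨h1, k, u, h2, h3⟩ := hm
  exact ⟨h1, k, u, h2.trans (mul_le_mul_of_nonneg_right hκκ' hlogN), h3⟩

theorem asymptotic (q c : ℕ) (hq : Odd q) (hc : Odd c) (hcq : Nat.Coprime c q) (κ ε : ℝ) (hε : 0 < ε)
    (hκ : κ * (Real.log 2 + 1 / 4 * Real.log q) < 1) (W A U : ℕ) :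
    ∃ N₀ : ℕ, ∀ N : ℕ, N₀ ≤ N → ((exceptional q c (Formula ε W) κ U N).card : ℝ) ≤ N / Real.log N ^ A := by
  apply general q c hq hc hcq (2 / 3) κ (by norm_num) (by norm_num) (by linarith)
  intro ρ hρ A T
  exact Pool.Agent.R460.GX.mid_asymp (Formula ε W) (ε / 2) (by linarith) (W + 2)
    (Pool.Agent.Results.MP_7b7e48_nt.DistinctPrimesInSparseClasses.formula_of ε hε W) ρ hρ A T

theorem lower (q c : ℕ) (hq : Odd q) (hc : Odd c) (hcq : Nat.Coprime c q) (κ : ℝ)
    (hκ : κ * (Real.log 2 + 3 / 14 * Real.log q) < 1) (W A U : ℕ) :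
    ∃ N₀ : ℕ, ∀ N : ℕ, N₀ ≤ N → ((exceptional q c (Lower W) κ U N).card : ℝ) ≤ N / Real.log N ^ A := by
  apply general q c hq hc hcq (7 / 10) κ (by norm_num) (by norm_num) (by linarith)
  intro ρ hρ A T
  exact Pool.Agent.R460.GX.mid_few (Lower W) (W + 2)
    (Pool.Agent.Results.MP_7b7e48_nt.DistinctPrimesInSparseClasses.lower_of W) ρ hρ A T

theorem distinct_of_lower {W n : ℕ} (hn : 1 ≤ n) (h : Lower W n) : TwoDistinctPrimes (2 * n) := by
  have h1 := h.1
  have h2 : 0 < pred n n := by
    unfold pred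
    have h3 := Pool.Agent.R460.GS.one_le_sing (2 * n)
    have h4 : 0 < Real.log ((2 * n : ℕ) : ℝ) := by
      apply Real.log_pos
      exact_mod_cast (by omega : 1 < 2 * n)
    have h5 : (0 : ℝ) < n := by exact_mod_cast hn
    positivity
  have h3 : (0 : ℝ) < g n := by linarith
  have h4 : 0 < g n := by exact_mod_cast h3
  unfold g at h4
  rw [card_pos] at h4
  obtain ⟨⟨p, p'⟩, hp⟩ := h4
  unfold M at hp
  rw [mem_filter] at hp
  obtain ⟨-, h5, h6, h7, h8, h9⟩ := hp
  simp only at h5 h6 h7 h8 h9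
  exact ⟨p, p', h5, h6, by omega, h7⟩

theorem collatz (U : ℕ) : AlmostAll (fun m => ∀ k u : ℕ, (k : ℝ) ≤ 107 / 100 * Real.log m → 1 ≤ u →
    (u : ℝ) ≤ Real.log m ^ U → TwoDistinctPrimes (2 * (u * (T 3 1)^[k] m))) := by
  classical
  have h3 : Real.log 3 < 11 / 10 := by
    rw [Real.log_lt_iff_lt_exp (by norm_num)]
    have h1 := Real.exp_one_gt_d9
    have h2 : (11 / 10 : ℝ) = 1 + 1 / 10 := by norm_num
    have h7 := Real.quadratic_le_exp_of_nonneg (x := 1 / 10) (by norm_num)
    rw [h2, Real.exp_add]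
    nlinarith
  have h2 := Real.log_two_lt_d9
  obtain ⟨N₀, hN₀⟩ := lower 3 1 (by decide) (by decide) (by decide) (107 / 100) (by
    push_cast
    norm_num at h2 ⊢
    linarith) 0 1 U
  unfold AlmostAll
  have hlog : Tendsto (fun N : ℕ => 1 / Real.log (N : ℝ)) atTop (𝓝 0) := by
    have h1 : Tendsto (fun N : ℕ => Real.log (N : ℝ)) atTop atTop :=
      Real.tendsto_log_atTop.comp tendsto_natCast_atTop_atTop
    simp only [one_div]
    exact tendsto_inv_atTop_zero.comp h1
  refine squeeze_zero' (Eventually.of_forall (fun N => by positivity)) ?_ hlog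
  filter_upwards [eventually_ge_atTop (N₀ + 2)] with N hN
  have hN2 : (2 : ℝ) ≤ N := by exact_mod_cast (by omega : 2 ≤ N)
  have hN0 : (0 : ℝ) < N := by linarith
  rw [div_le_iff₀ hN0]
  have h5 := hN₀ N (by omega)
  rw [pow_one] at h5
  have h6 : 1 / Real.log (N : ℝ) * N = N / Real.log N := by ring
  rw [h6]
  refine le_trans ?_ h5
  apply Nat.cast_le.2
  apply card_le_card
  intro m hm
  unfold exceptional
  rw [mem_filter] at hm ⊢
  obtain ⟨h7, h8⟩ := hm
  refine ⟨h7, ?_⟩
  push Not at h8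
  obtain ⟨k, u, h9, h10, h11, h12⟩ := h8
  rw [mem_Icc] at h7
  have hm1 : (1 : ℝ) ≤ m := by exact_mod_cast h7.1
  have hmN : Real.log m ≤ Real.log N := Real.log_le_log (by linarith) (by exact_mod_cast h7.2)
  have hm0 : 0 ≤ Real.log m := Real.log_nonneg hm1
  refine ⟨k, u, h9.trans (by linarith), h10, h11.trans (pow_le_pow_left₀ hm0 hmN U), fun hL => h12 ?_⟩
  apply distinct_of_lower _ hL
  exact Nat.mul_pos h10 (Run7.h469.CT.iter_pos (by norm_num) (by norm_num) k h7.1)

/-- **Sums of two distinct primes along trajectories.** Let `q`, `c` be odd and coprime, `W`, `A`, `U` arbitrary.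
(1) If `κ (log 2 + (log q) / 4) < 1`, then for all large `N` and for all `m ≤ N` with at most `N / (log N)^A` exceptions ALL
the integers `n = u * T^k(m)`, `k ≤ κ log N`, `1 ≤ u ≤ (log N)^U`, satisfy `Formula ε W n`.
(2) The same with `Lower W n`, if only `κ (log 2 + (3 / 14) log q) < 1`.
(3) In particular for almost all `m` all the numbers `2 u T^k(m)`, `k ≤ 1.07 log m`, `1 ≤ u ≤ (log m)^U`, where
`T(x) = x / 2` or `(3 x + 1) / 2`, are sums of two distinct primes. -/
theorem result :
    (∀ q c : ℕ, Odd q → Odd c → Nat.Coprime c q → ∀ κ ε : ℝ, 0 < ε → κ * (Real.log 2 + 1 / 4 * Real.log q) < 1 →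
      ∀ W A U : ℕ, ∃ N₀ : ℕ, ∀ N : ℕ, N₀ ≤ N →
        ((exceptional q c (Formula ε W) κ U N).card : ℝ) ≤ N / Real.log N ^ A) ∧
    (∀ q c : ℕ, Odd q → Odd c → Nat.Coprime c q → ∀ κ : ℝ, κ * (Real.log 2 + 3 / 14 * Real.log q) < 1 →
      ∀ W A U : ℕ, ∃ N₀ : ℕ, ∀ N : ℕ, N₀ ≤ N →
        ((exceptional q c (Lower W) κ U N).card : ℝ) ≤ N / Real.log N ^ A) ∧
    ∀ U : ℕ, AlmostAll (fun m => ∀ k u : ℕ, (k : ℝ) ≤ 107 / 100 * Real.log m → 1 ≤ u → (u : ℝ) ≤ Real.log m ^ U →
      TwoDistinctPrimes (2 * (u * (T 3 1)^[k] m))) :=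
  ⟨fun q c hq hc hcq κ ε hε hκ W A U => asymptotic q c hq hc hcq κ ε hε hκ W A U,
    fun q c hq hc hcq κ hκ W A U => lower q c hq hc hcq κ hκ W A U, collatz⟩

end Pool.Agent.Results.MP_7b7e48_nt.CollatzTrajectories
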