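import Pool.Agent.Run7.h469.LF.Rec
import Pool.Agent.Results.MP_7b7e48_nt.DistinctPrimesInSparseClasses

/-!
# Sums of two distinct primes: values of linear forms with large coefficients, linear recurrences

Let `d ≥ 1`. For EVERY linear form `c · v + e` in `d` variables whose integer coefficients `c_i` have at most `(log X)^U` as
their greatest common divisor and are at most `X^(2 - η)`, and for all vectors `v` of `[1, X]^d` with at most
`X^d / (log X)^A` exceptions, the number `g(m)` of the representations of `2 m`, `m = c · v + e > 0`, as a sum of two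
distinct primes satisfies the asymptotic formula of Hardy and Littlewood, also in windows; for the lower bound with `1 / 21`
of the expected number the coefficients can be as large as `X^(7/3 - η)`. For `d = 2` the `X^2` values of such a form are
spread over an interval of length `X^(3 - η)` (`X^(10/3 - η)`): they are two-dimensional generalised progressions of
density `N^(-1/3)`. The same holds for all members of a family of `(log X)^U` forms at once, for instance for ALL the entries
of `M^k v` if `M` is an integer matrix of determinant `± 1` and the entries of `M^k` are at most `X^(2 - η)`.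

In particular, let `s`, `t` be coprime positive integers (`s = t = 1`: generalised Fibonacci sequences). For all pairs
`a, b ≤ X` with at most `X^2 / (log X)^A` exceptions ALL the members `x_n ≤ X^(3 - η)` of the sequence `x_0 = a`, `x_1 = b`,
`x_(n + 2) = s x_(n + 1) + t x_n`, all their multiples by `u ≤ (log X)^U` and all the integers within `(log X)^U` of these
satisfy the formula; the members `x_n ≤ X^(10/3 - η)` satisfy the lower bound.

Definitions used from the starting file `Results/MP_7b7e48_nt/DistinctPrimesInSparseClasses`: `M n`: the set of the pairs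
`(p, p')` of primes with `p + p' = 2 n`, `p > n > p'`; `g n`: the number of its elements; `gw n y₁ y₂`: the number of the
pairs with `y₁ < p' ≤ y₂`; `pred n l = sing (2 n) l / (log 2 n)²`: the prediction of Hardy and Littlewood (`sing` is the
singular series); `Formula ε W n`: `|g n - pred n n| ≤ ε pred n n` and `|gw n y₁ y₂ - pred n (y₂ - y₁)| ≤ ε pred n (y₂ - y₁)`
for all `y₁ < y₂ < n` with `y₂ - y₁ ≥ n / (log n)^W`; `Lower W n`: the same with the lower bounds `g n ≥ pred n n / 21` and
`gw n y₁ y₂ ≥ pred n (y₂ - y₁) / 21`.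

Proof. There is a vector `w` with coordinates at most `H = X^σ` such that `q = |c · w|` is about `H max |c_i|` and such that
`c · v + e` has only a small common divisor with `q` for almost all `v`. (For the divisors up to `H` one takes the mean
value over `w`; for the larger ones some coordinate of `v` is determined modulo a large number.) The box is a union of
progressions `v_0 + t w`, on which the form runs through residue classes modulo `q`, and the theorem of the starting
files on the representations in all residue classes of all moduli up to `x^(2/3 - ρ)` and `x^(7/10 - ρ)` (`R460`) can be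
applied.
-/

set_option autoImplicit false

namespace Pool.Agent.Results.MP_7b7e48_nt.LinearFormsAndRecurrences

open Finset
open Pool.Agent.Results.MP_7b7e48_nt.DistinctPrimesInSparseClasses (Formula Lower M g gw pred)

/-- The greatest common divisor of the coefficients `c_i` is at most `(log X)^U` (some integral linear combination of them is
positive and at most `(log X)^U`), the coefficients are at most `X^τ` in absolute value, and the constant term `e` is at
most `X` times the largest coefficient. -/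
def Admissible {d : ℕ} (τ : ℝ) (U X : ℕ) (c : Fin d → ℤ) (e : ℤ) : Prop :=
  (∃ u : Fin d → ℤ, 1 ≤ ∑ i, c i * u i ∧ ((∑ i, c i * u i : ℤ) : ℝ) ≤ Real.log X ^ U) ∧
  ∃ i, (∀ j, |c j| ≤ |c i|) ∧ |(c i : ℝ)| ≤ (X : ℝ) ^ τ ∧ |e| ≤ |c i| * X

open Classical in
/-- The vectors `v` of `[1, X]^d` for which `P m` is false for some value `m = c · v + e > 0` of a form of the family. -/
noncomputable def exceptionalVectors {d : ℕ} (P : ℕ → Prop) (X : ℕ) (family : Finset ((Fin d → ℤ) × ℤ)) :
    Finset (Fin d → ℕ) :=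
  (Fintype.piFinset (fun _ => Icc 1 X)).filter (fun v => ∃ l ∈ family, ∃ m : ℕ, 0 < m ∧
    (m : ℤ) = ∑ i, l.1 i * (v i : ℤ) + l.2 ∧ ¬ P m)

/-- the sequence with `x_0 = a`, `x_1 = b`, `x_(n+2) = s x_(n+1) + t x_n` -/
def seq (s t a b : ℕ) : ℕ → ℕ
  | 0 => a
  | 1 => b
  | n + 2 => s * seq s t a b (n + 1) + t * seq s t a b n

open Classical in
/-- The pairs `(a, b)` in `[1, X]^2` such that for some member `x_n ≤ Y` of the sequence, some `1 ≤ u ≤ (log X)^U` and some
integer `v`, `|v| ≤ (log X)^U`, the number `m = u x_n + v` is positive and `P m` is false. -/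
noncomputable def exceptionalPairs (s t : ℕ) (P : ℕ → Prop) (U X : ℕ) (Y : ℝ) : Finset (ℕ × ℕ) :=
  (Icc 1 X ×ˢ Icc 1 X).filter (fun z => ∃ (n u m : ℕ) (v : ℤ), (seq s t z.1 z.2 n : ℝ) ≤ Y ∧
    1 ≤ u ∧ (u : ℝ) ≤ Real.log X ^ U ∧ |(v : ℝ)| ≤ Real.log X ^ U ∧ 0 < m ∧ (m : ℤ) = u * seq s t z.1 z.2 n + v ∧ ¬ P m)

theorem seq_eq (s t a b : ℕ) : ∀ n, seq s t a b n = Run7.h469.LF.seq s t a b n
  | 0 => rfl
  | 1 => rfl
  | n + 2 => by rw [seq, Run7.h469.LF.seq, seq_eq s t a b n, seq_eq s t a b (n + 1)]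

theorem vectors {d : ℕ} (hd : 1 ≤ d) (θ τ η : ℝ) (hθ0 : 0 < θ) (hθ1 : θ < 1) (hη0 : 0 < η) (hτ : τ = θ / (1 - θ) - η)
    (P : ℕ → Prop) (hP : Run7.h469.CT.Few θ P) (A U : ℕ) : ∃ X₀ : ℕ, ∀ X : ℕ, X₀ ≤ X →
      ∀ family : Finset ((Fin d → ℤ) × ℤ), (family.card : ℝ) ≤ Real.log X ^ U →
      (∀ l ∈ family, Admissible τ U X l.1 l.2) →
        ((exceptionalVectors P X family).card : ℝ) ≤ (X : ℝ) ^ d / Real.log X ^ A := by
  classical
  obtain ⟨X₀, hX₀⟩ := Run7.h469.LF.family (d := d) (by omega) θ η hθ0 hθ1 hη0 P hP A U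
  refine ⟨X₀, fun X hX 𝓛 hcard hadm => ?_⟩
  rw [hτ] at hadm
  refine le_trans ?_ (hX₀ X hX 𝓛 hcard hadm)
  apply Nat.cast_le.2
  apply card_le_card
  intro v hv
  unfold exceptionalVectors at hv
  rw [mem_filter] at hv
  obtain ⟨h1, l, h2, m, h3, h4, h5⟩ := hv
  rw [mem_filter]
  have h6 : Run7.h469.LF.val l.1 l.2 v = m := by
    unfold Run7.h469.LF.val
    exact h4.symm
  refine ⟨h1, l, h2, ?_, ?_⟩
  · rw [h6]
    exact_mod_cast h3
  · rw [h6]
    simpa using h5

theorem pairs (s t : ℕ) (hs : 1 ≤ s) (ht : 1 ≤ t) (hst : Nat.Coprime s t) (θ κ η : ℝ) (hθ0 : 0 < θ) (hθ1 : θ < 1)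
    (hη0 : 0 < η) (hκ : κ = 1 / (1 - θ) - η) (P : ℕ → Prop) (hP : Run7.h469.CT.Few θ P) (A U : ℕ) :
    ∃ X₀ : ℕ, ∀ X : ℕ, X₀ ≤ X →
      ((exceptionalPairs s t P U X ((X : ℝ) ^ κ)).card : ℝ) ≤ (X : ℝ) ^ 2 / Real.log X ^ A := by
  classical
  obtain ⟨X₀, hX₀⟩ := Run7.h469.LF.recurrence hs ht hst θ η hθ0 hθ1 hη0 P hP A U
  refine ⟨X₀, fun X hX => ?_⟩
  refine le_trans ?_ (hX₀ X hX)
  apply Nat.cast_le.2
  apply card_le_card
  intro z hz
  unfold exceptionalPairs at hz
  rw [mem_filter] at hz ⊢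
  obtain ⟨h1, n, u, m, v, h2, h3, h4, h5, h6, h7, h8⟩ := hz
  rw [seq_eq] at h2 h7
  rw [hκ] at h2
  exact ⟨h1, n, u, m, v, h2, h3, h4, h5, h6, h7, h8⟩

theorem few_formula (ε : ℝ) (hε : 0 < ε) (W : ℕ) : Run7.h469.CT.Few (2 / 3) (Formula ε W) := by
  intro ρ hρ A T
  exact Pool.Agent.R460.GX.mid_asymp (Formula ε W) (ε / 2) (by linarith) (W + 2)
    (Pool.Agent.Results.MP_7b7e48_nt.DistinctPrimesInSparseClasses.formula_of ε hε W) ρ hρ A T

theorem few_lower (W : ℕ) : Run7.h469.CT.Few (7 / 10) (Lower W) := by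
  intro ρ hρ A T
  exact Pool.Agent.R460.GX.mid_few (Lower W) (W + 2)
    (Pool.Agent.Results.MP_7b7e48_nt.DistinctPrimesInSparseClasses.lower_of W) ρ hρ A T

/-- **Values of linear forms and members of linear recurrence sequences.** Let `η, ε > 0`, `W`, `A`, `U` be arbitrary, let
`X` be large. (1) For every family of at most `(log X)^U` linear forms in `d ≥ 1` variables with coefficients at most
`X^(2 - η)` and with greatest common divisors at most `(log X)^U`, and for all `v` in `[1, X]^d` with at most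
`X^d / (log X)^A` exceptions, all the positive values `m` of the forms at `v` satisfy `Formula ε W m`.
(2) If the coefficients are only at most `X^(7/3 - η)` they satisfy `Lower W m`.
(3), (4) Let `s`, `t` be coprime and positive. For all `(a, b)` in `[1, X]^2` with at most `X^2 / (log X)^A` exceptions all
the positive integers `m = u x_n + v`, `x_n ≤ X^(3 - η)` (`x_n ≤ X^(10/3 - η)`), `1 ≤ u ≤ (log X)^U`, `|v| ≤ (log X)^U`,
satisfy `Formula ε W m` (`Lower W m`), where `x_0 = a`, `x_1 = b`, `x_(n+2) = s x_(n+1) + t x_n`. -/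
theorem result (η ε : ℝ) (hη : 0 < η) (hε : 0 < ε) (W A U : ℕ) :
    (∀ d : ℕ, 1 ≤ d → ∃ X₀ : ℕ, ∀ X : ℕ, X₀ ≤ X → ∀ family : Finset ((Fin d → ℤ) × ℤ),
      (family.card : ℝ) ≤ Real.log X ^ U → (∀ l ∈ family, Admissible (2 - η) U X l.1 l.2) →
        ((exceptionalVectors (Formula ε W) X family).card : ℝ) ≤ (X : ℝ) ^ d / Real.log X ^ A) ∧
    (∀ d : ℕ, 1 ≤ d → ∃ X₀ : ℕ, ∀ X : ℕ, X₀ ≤ X → ∀ family : Finset ((Fin d → ℤ) × ℤ),
      (family.card : ℝ) ≤ Real.log X ^ U → (∀ l ∈ family, Admissible (7 / 3 - η) U X l.1 l.2) →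
        ((exceptionalVectors (Lower W) X family).card : ℝ) ≤ (X : ℝ) ^ d / Real.log X ^ A) ∧
    (∀ s t : ℕ, 1 ≤ s → 1 ≤ t → Nat.Coprime s t → ∃ X₀ : ℕ, ∀ X : ℕ, X₀ ≤ X →
      ((exceptionalPairs s t (Formula ε W) U X ((X : ℝ) ^ (3 - η))).card : ℝ) ≤ (X : ℝ) ^ 2 / Real.log X ^ A) ∧
    (∀ s t : ℕ, 1 ≤ s → 1 ≤ t → Nat.Coprime s t → ∃ X₀ : ℕ, ∀ X : ℕ, X₀ ≤ X →
      ((exceptionalPairs s t (Lower W) U X ((X : ℝ) ^ (10 / 3 - η))).card : ℝ) ≤ (X : ℝ) ^ 2 / Real.log X ^ A) := by
  refine ⟨fun d hd => ?_, fun d hd => ?_, fun s t hs ht hst => ?_, fun s t hs ht hst => ?_⟩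
  · exact vectors hd (2 / 3) (2 - η) η (by norm_num) (by norm_num) hη (by norm_num) _ (few_formula ε hε W) A U
  · exact vectors hd (7 / 10) (7 / 3 - η) η (by norm_num) (by norm_num) hη (by norm_num) _ (few_lower W) A U
  · exact pairs s t hs ht hst (2 / 3) (3 - η) η (by norm_num) (by norm_num) hη (by norm_num) _ (few_formula ε hε W) A U
  · exact pairs s t hs ht hst (7 / 10) (10 / 3 - η) η (by norm_num) (by norm_num) hη (by norm_num) _ (few_lower W) A U

end Pool.Agent.Results.MP_7b7e48_nt.LinearFormsAndRecurrences
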